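import Pool.Agent.Lib_helper27.MS.Main

/-!
MP_68d1b4_lc: if there are infinitely many supercompact cardinals then there is a model of ZFC in
which all sequences of the sets `S^n_(f(n))`, `f : ω → {0, …, l}`, are mutually stationary.
-/

namespace Pool.Agent.Results.MP_68d1b4_lc.Consistency

open Pool.Agent.Lib_helper27 Fml

/-- Let `κ 0 < κ 1 < …` be supercompact cardinals and let `l` be a natural number. Then there is a
model of ZFC in which for every `f : ω → {0, …, l}` the sequence `⟨S^n_(f(n)) : l < n < ω⟩` is
mutually stationary. -/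
theorem result (κ : ℕ → Cardinal.{0}) (hκ : StrictMono κ) (hs : ∀ n, MS.SuperC (κ n)) (l : ℕ) :
    ∃ (M : Type 1) (E : M → M → Prop), IsModelOfZFC E ∧ Holds E (mutStat l) :=
  MS.main κ hκ hs l

end Pool.Agent.Results.MP_68d1b4_lc.Consistency
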