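import Pool.Agent.Lib_helper73.MS.Final

/-!
MP_68d1b4_lc: all sequences of sets `S^n_(f n)` with `f n ≤ l` are mutually stationary if GCH holds
from `ℵ_l` on and every `ℵ_n`, `n ≥ l + 2`, is generically `ℵ_(n+1)`-compact by an
`ω_(l+1)`-closed forcing.
-/

namespace Pool.Agent.Results.MP_68d1b4_lc.GenericCompactness

open Cardinal Ordinal Set Filter

/-- `S^n_m = {α < ω_n : cf α = ℵ_m}`. -/
def S (n m : ℕ) : Set Ordinal.{0} :=
  {α | α < ω_ (n : Ordinal.{0}) ∧ α.cof = ℵ_ (m : Ordinal.{0})}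

/-- The sequence of the sets `A n` for `n ∈ I` is mutually stationary: for every first-order
structure with universe `ℵ_ω` in a countable language there is an elementary substructure `N` with
`sup (N ∩ ω_n) ∈ A n` for all `n ∈ I`. -/
def MutuallyStationary (I : Set ℕ) (A : ℕ → Set Ordinal.{0}) : Prop :=
  ∀ (L : FirstOrder.Language.{0, 0}) [Countable L.Symbols]
    [L.Structure (Set.Iio (ω_ (ω : Ordinal.{0})))],
    ∃ N : L.ElementarySubstructure (Set.Iio (ω_ (ω : Ordinal.{0}))),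
      ∀ n ∈ I, sSup {α | α < ω_ (n : Ordinal.{0}) ∧ ∃ v ∈ N, v.1 = α} ∈ A n

/-- Every descending sequence of length less than `Ω` has a lower bound. -/
def SeqClosed (R : Type 1) [Preorder R] (Ω : Ordinal.{0}) : Prop :=
  ∀ o < Ω, ∀ s : Set.Iio o → R, Antitone s → ∃ b, ∀ i, b ≤ s i

/-- `P_κ(κ⁺)` for `κ = ℵ_n`: the subsets of `ω_(n+1)` of cardinality less than `ℵ_n`. -/
abbrev Pk (n : ℕ) : Type 1 :=
  {x : Set (Set.Iio (ω_ ((n + 1 : ℕ) : Ordinal.{0}))) // #x < ℵ_ (n : Ordinal.{1})}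

/-- `ℵ_n` is generically `ℵ_(n+1)`-compact by an `ω_(l+1)`-closed forcing: there are a partial order
`R` in which all descending sequences of length less than `ω_(l+1)` have lower bounds and (the
filters `U r` of all sets which are forced by `r` to be in) an `R`-name for a `V`-`ℵ_n`-complete
fine `V`-ultrafilter on `P_(ℵ_n)(ℵ_(n+1))`: the filters `U r` are proper, `ℵ_n`-complete and fine,
they increase when the condition gets stronger, and for every partition of `P_(ℵ_n)(ℵ_(n+1))` into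
fewer than `ℵ_n` pieces every condition has an extension `r` such that one of the pieces is in
`U r`. -/
def GenCompact (l n : ℕ) : Prop :=
  ∃ (R : Type 1) (_ : Preorder R) (_ : Nonempty R) (U : R → Filter (Pk n)),
    SeqClosed R (ω_ ((l + 1 : ℕ) : Ordinal.{0})) ∧
    (∀ r r', r' ≤ r → U r' ≤ U r) ∧
    (∀ r, (U r).NeBot) ∧
    (∀ r, CardinalInterFilter (U r) (ℵ_ (n : Ordinal.{1}))) ∧
    (∀ r α, ∀ᶠ x in U r, α ∈ x.1) ∧
    (∀ r, ∀ β < ω_ (n : Ordinal.{0}), ∀ h : Pk n → Set.Iio β,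
      ∃ r' ≤ r, ∃ γ, ∀ᶠ x in U r', h x = γ)

theorem result (l : ℕ)
    (hGCH : ∀ n : ℕ, l ≤ n → (2 : Cardinal.{0}) ^ (ℵ_ (n : Ordinal.{0})) =
      ℵ_ ((n + 1 : ℕ) : Ordinal.{0}))
    (hC : ∀ n : ℕ, l + 2 ≤ n → GenCompact l n) (f : ℕ → ℕ) (hf : ∀ n, f n ≤ l) :
    MutuallyStationary {n | l < n} (fun n => S n (f n)) := by
  intro L _ _
  obtain ⟨N, hN⟩ := Pool.Agent.Lib_helper73.MS.exists_elementary
    (Pool.Agent.Lib_helper73.MS.GCHfrom_of hGCH) hf hC L
  refine ⟨N, fun n hn => ?_⟩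
  have hset : {α | α < ω_ (n : Ordinal.{0}) ∧ ∃ v ∈ N, v.1 = α} =
      Pool.Agent.Lib_helper73.MS.tr (N : Set _) n := by
    ext α
    constructor
    · rintro ⟨h, v, hv, rfl⟩
      exact ⟨v, hv, h, rfl⟩
    · rintro ⟨v, hv, h, rfl⟩
      exact ⟨h, v, hv, rfl⟩
  rw [hset]
  exact hN n hn

end Pool.Agent.Results.MP_68d1b4_lc.GenericCompactness
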